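import Pool.Agent.W181.WH.Stm

/-! # WH-CLAIM: the Jacquet integral is a Givental function -/

set_option autoImplicit false

open MeasureTheory Set

namespace Pool.Agent.W239.WHC

open Pool.Agent.W181.WH

theorem sum_mu {m : ℕ} (α : Fin (m + 2) → ℂ) :
    ∑ k, muOf α k - ((m + 1 : ℕ) : ℂ) = α 0 - α (Fin.last (m + 1)) := by
  have h1 : ∑ k, muOf α k = ((m + 1 : ℕ) : ℂ) +
      (∑ k : Fin (m + 1), α k.castSucc - ∑ k : Fin (m + 1), α k.succ) := by
    simp only [muOf, Finset.sum_sub_distrib, Finset.sum_add_distrib]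
    simp
    ring
  have h2 := Fin.sum_univ_castSucc α
  have h3 := Fin.sum_univ_succ α
  rw [h1]
  have h4 : ∑ k : Fin (m + 1), α k.castSucc = ∑ i, α i - α (Fin.last (m + 1)) := by
    rw [h2]; ring
  have h5 : ∑ k : Fin (m + 1), α k.succ = ∑ i, α i - α 0 := by
    rw [h3]; ring
  rw [h4, h5]
  ring

theorem tl_mu {m : ℕ} (α : Fin (m + 2) → ℂ) :
    tl (muOf α) = muOf (fun i => -(tl α i)) := by
  funext k
  simp only [tl, muOf, Fin.rev_castSucc, Fin.rev_succ, Fin.succ_castSucc]
  ring

theorem sum_le {m : ℕ} (α : Fin (m + 2) → ℂ) (i : Fin (m + 1)) :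
    1 + ∑ k : Fin (m + 1), (if k ≤ i then muOf α k - 1 else 0) = 1 + α 0 - α i.succ := by
  have key : ∀ (n : ℕ) (hn : n < m + 1), ∑ k : Fin (m + 1),
      (if (k : ℕ) ≤ n then muOf α k - 1 else 0) = α 0 - α ⟨n + 1, by omega⟩ := by
    intro n
    induction n with
    | zero =>
      intro hn
      rw [Finset.sum_eq_single (0 : Fin (m + 1))]
      · rw [if_pos (by simp), muOf]
        have : (0 : Fin (m + 1)).succ = (⟨0 + 1, by omega⟩ : Fin (m + 2)) := rfl
        rw [this]
        simp
        ring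
      · intro b _ hb
        rw [if_neg]
        intro h
        exact hb (Fin.ext (by simpa using h))
      · intro h; exact absurd (Finset.mem_univ _) h
    | succ n ih =>
      intro hn
      have h1 := ih (by omega)
      have h2 : ∑ k : Fin (m + 1), (if (k : ℕ) ≤ n + 1 then muOf α k - 1 else 0) =
          ∑ k : Fin (m + 1), ((if (k : ℕ) ≤ n then muOf α k - 1 else 0) +
            (if k = (⟨n + 1, hn⟩ : Fin (m + 1)) then muOf α k - 1 else 0)) := by
        apply Finset.sum_congr rfl
        intro k _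
        by_cases h3 : (k : ℕ) ≤ n
        · rw [if_pos (by omega), if_pos h3, if_neg (by
            intro h; rw [h] at h3; simp at h3), add_zero]
        · by_cases h4 : k = (⟨n + 1, hn⟩ : Fin (m + 1))
          · rw [if_pos (by rw [h4]), if_neg h3, if_pos h4, zero_add]
          · rw [if_neg, if_neg h3, if_neg h4, zero_add]
            intro h5
            apply h4
            ext
            simp only
            omega
      rw [h2, Finset.sum_add_distrib, h1, Finset.sum_ite_eq' Finset.univ, if_pos (Finset.mem_univ _),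
        muOf]
      have e1 : (⟨n + 1, hn⟩ : Fin (m + 1)).castSucc = (⟨n + 1, by omega⟩ : Fin (m + 2)) := rfl
      have e2 : (⟨n + 1, hn⟩ : Fin (m + 1)).succ = (⟨n + 1 + 1, by omega⟩ : Fin (m + 2)) := rfl
      rw [e1, e2]
      ring
  have h := key i i.2
  have e : (⟨(i : ℕ) + 1, by omega⟩ : Fin (m + 2)) = i.succ := rfl
  rw [e] at h
  have h' : ∑ k : Fin (m + 1), (if k ≤ i then muOf α k - 1 else 0) = α 0 - α i.succ := h
  rw [h']
  ring

theorem gam_step {m : ℕ} (α : Fin (m + 2) → ℂ) :
    Gam α = Gam (fun i => -(tl α i)) * (2 ^ (m + 1) * cmu (muOf α)) := by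
  have h1 : cmu (muOf α) * 2 ^ (m + 1) = ∏ i : Fin (m + 1), GR (1 + α 0 - α i.succ) := by
    rw [cmu]
    have : (2 : ℂ) ^ (m + 1) = ∏ _i : Fin (m + 1), (2 : ℂ) := by simp
    rw [this, ← Finset.prod_mul_distrib]
    apply Finset.prod_congr rfl
    intro i _
    rw [sum_le]
    ring
  have h2 : Gam (fun i => -(tl α i)) = ∏ j : Fin (m + 1), ∏ k : Fin (m + 1),
      (if j < k then GR (1 + α j.succ - α k.succ) else 1) := by
    rw [Gam, Finset.prod_comm, ← Equiv.prod_comp Fin.revPerm]
    apply Finset.prod_congr rfl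
    intro j _
    rw [← Equiv.prod_comp Fin.revPerm]
    apply Finset.prod_congr rfl
    intro k _
    simp only [Fin.revPerm_apply, Fin.rev_lt_rev, tl, Fin.rev_rev]
    split_ifs
    · congr 1; ring
    · rfl
  have h3 : Gam α = (∏ i : Fin (m + 1), GR (1 + α 0 - α i.succ)) *
      ∏ j : Fin (m + 1), ∏ k : Fin (m + 1),
      (if j < k then GR (1 + α j.succ - α k.succ) else 1) := by
    rw [Gam, Fin.prod_univ_succ]
    congr 1
    · rw [Fin.prod_univ_succ, if_neg (lt_irrefl _), one_mul]
      apply Finset.prod_congr rfl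
      intro i _
      rw [if_pos (Fin.succ_pos i)]
    · apply Finset.prod_congr rfl
      intro j _
      rw [Fin.prod_univ_succ, if_neg (by simp), one_mul]
      apply Finset.prod_congr rfl
      intro k _
      simp only [Fin.succ_lt_succ_iff]
  rw [h3, ← h1, h2]
  ring

theorem base (α : Fin 1 → ℂ) (x : Fin 1 → ℝ) : Integrable (JnI (muOf α) x) ∧
    Gam α * Jn 0 (muOf α) x = 2 ^ (0 * (0 + 1) / 2) *
      Complex.exp (-(α 0) * ((∑ i, x i : ℝ) : ℂ) -
        ((∑ j : Fin (0 + 1), (((0 : ℕ) : ℝ) - (j : ℕ)) * x j : ℝ) : ℂ)) * Psi (0 + 1) α x := by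
  have hemp : IsEmpty (LIdx 1) := ⟨fun p => by
    have := p.2
    rw [Subsingleton.elim p.1.2 p.1.1] at this
    exact lt_irrefl _ this⟩
  have hJ : JnI (muOf α) x = fun _ => 1 := by
    funext v
    rw [JnI, ch]
    simp
  have hvol : (volume : Measure (LIdx 1 → ℝ)) = Measure.dirac (fun p => isEmptyElim p) :=
    Measure.volume_pi_eq_dirac _
  have hvol2 : (volume : Measure (Fin 0 → ℝ)) = Measure.dirac (fun p => isEmptyElim p) :=
    Measure.volume_pi_eq_dirac _
  constructor
  · rw [hJ, hvol]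
    exact integrable_const _
  · have h1 : Jn 0 (muOf α) x = 1 := by
      rw [Jn, hJ, hvol]
      simp
    have h2 : Gam α = 1 := by
      rw [Gam]
      simp
    have h3 : Psi (0 + 1) α x = Complex.exp (α 0 * (x 0 : ℂ)) := by
      rw [Psi, hvol2, integral_dirac]
      simp [Qk, Psi]
    rw [h1, h2, h3]
    simp [← Complex.exp_add]

theorem t_claim : S_PHI1 → S_DUAL → S_CLAIM := by
  intro hP hD m
  induction m with
  | zero =>
    intro α _ x
    exact base α x
  | succ m ih =>
    intro α hα x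
    set μ := muOf α with hμ
    set α' : Fin (m + 1) → ℂ := fun i => -(tl α i) with hα'
    have htl : tl μ = muOf α' := tl_mu α
    have hcond : ∀ i : Fin m, 0 < (α' i.castSucc - α' i.succ).re := by
      intro i
      have := hα (Fin.rev i).succ
      simp only [hα', tl, Fin.rev_castSucc, Fin.rev_succ, Fin.succ_castSucc]
      rw [show -α (Fin.rev i).succ.succ - -α (Fin.rev i).succ.castSucc =
        α (Fin.rev i).succ.castSucc - α (Fin.rev i).succ.succ by ring]
      exact this
    have hμre : ∀ k, 1 < (μ k).re := by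
      intro k
      have := hα k
      rw [hμ, muOf]
      rw [Complex.sub_re] at this
      rw [Complex.sub_re, Complex.add_re, Complex.one_re]
      linarith
    have IH := ih α' hcond
    obtain ⟨i1, i2⟩ := hP m μ hμre (fun x => by rw [htl]; exact (IH x).1) x
    refine ⟨i1, ?_⟩
    -- the recursion
    have hJn : ∀ τ : Fin (m + 1) → ℝ, Gam α' * Jn m (tl μ) (fun i => -τ (Fin.rev i)) =
        2 ^ (m * (m + 1) / 2) * Complex.exp (-(α (Fin.last (m + 1))) * ((∑ i, τ i : ℝ) : ℂ) +
          ((∑ i : Fin (m + 1), ((i : ℕ) : ℝ) * τ i : ℝ) : ℂ)) * Psi (m + 1) (tl α) τ := by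
      intro τ
      have h := (IH (fun i => -τ (Fin.rev i))).2
      rw [htl, h, hD]
      have e1 : (fun i => -α' i) = tl α := by
        funext i; simp [hα']
      rw [e1]
      congr 2
      congr 1
      have e2 : α' 0 = -α (Fin.last (m + 1)) := by
        simp only [hα', tl, Fin.rev_zero, Fin.succ_last]
      have e3 : ∑ i : Fin (m + 1), -τ (Fin.rev i) = -∑ i, τ i := by
        rw [Finset.sum_neg_distrib]
        congr 1
        exact Equiv.sum_comp Fin.revPerm τ
      have e4 : ∑ j : Fin (m + 1), ((m : ℝ) - (j : ℕ)) * -τ (Fin.rev j) =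
          -∑ i : Fin (m + 1), ((i : ℕ) : ℝ) * τ i := by
        rw [← Finset.sum_neg_distrib, ← Equiv.sum_comp Fin.revPerm]
        apply Finset.sum_congr rfl
        intro j _
        simp only [Fin.revPerm_apply, Fin.rev_rev, Fin.val_rev]
        have hj := j.2
        rw [Nat.cast_sub (by omega)]
        push_cast
        ring
      rw [e2, e3, e4]
      push_cast
      ring
    have hRec : Gam α' * Rec μ x = 2 ^ (m * (m + 1) / 2) *
        (Complex.exp (-(α 0) * ((∑ i, x i : ℝ) : ℂ) -
        ((∑ j : Fin (m + 1 + 1), (((m + 1 : ℕ) : ℝ) - (j : ℕ)) * x j : ℝ) : ℂ)) *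
          Psi (m + 1 + 1) α x) := by
      rw [Rec, Psi, ← mul_assoc, mul_comm (Gam α'), mul_assoc, ← integral_const_mul,
        ← integral_const_mul, ← integral_const_mul, ← integral_const_mul]
      apply integral_congr_ae
      refine Filter.Eventually.of_forall (fun τ => ?_)
      simp only
      have e1 : ∏ i : Fin (m + 1), Complex.exp (-(((i : ℕ) : ℂ) + ∑ k, μ k - ((m + 1 : ℕ) : ℂ)) *
          (τ i : ℂ)) = Complex.exp (-((∑ i : Fin (m + 1), ((i : ℕ) : ℝ) * τ i : ℝ) : ℂ) -
            (α 0 - α (Fin.last (m + 1))) * ((∑ i, τ i : ℝ) : ℂ)) := by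
        rw [← Complex.exp_sum]
        congr 1
        push_cast
        rw [Finset.mul_sum, ← Finset.sum_neg_distrib, ← Finset.sum_sub_distrib]
        apply Finset.sum_congr rfl
        intro i _
        have := sum_mu α
        push_cast at this
        rw [← this]
        ring
      rw [e1]
      have e2 := hJn τ
      calc _ = ((Real.exp (-∑ j : Fin (m + 2), ((m + 1 : ℝ) - (j : ℕ)) * x j) : ℝ) : ℂ) *
            (((Real.exp (-Real.pi * ∑ i : Fin (m + 1),
              (Real.exp (2 * (x i.succ - τ i)) + Real.exp (2 * (τ i - x i.castSucc)))) : ℝ) : ℂ) *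
            Complex.exp (-((∑ i : Fin (m + 1), ((i : ℕ) : ℝ) * τ i : ℝ) : ℂ) -
            (α 0 - α (Fin.last (m + 1))) * ((∑ i, τ i : ℝ) : ℂ)) *
            (Gam α' * Jn m (tl μ) (fun i => -τ (Fin.rev i)))) := by ring
        _ = _ := by
            rw [e2, Qk]
            have e3 : ((Real.exp (-∑ j : Fin (m + 2), ((m + 1 : ℝ) - (j : ℕ)) * x j) : ℝ) : ℂ) *
              (Complex.exp (-((∑ i : Fin (m + 1), ((i : ℕ) : ℝ) * τ i : ℝ) : ℂ) -
                (α 0 - α (Fin.last (m + 1))) * ((∑ i, τ i : ℝ) : ℂ)) *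
              Complex.exp (-(α (Fin.last (m + 1))) * ((∑ i, τ i : ℝ) : ℂ) +
                ((∑ i : Fin (m + 1), ((i : ℕ) : ℝ) * τ i : ℝ) : ℂ))) =
              Complex.exp (-(α 0) * ((∑ i, x i : ℝ) : ℂ) -
                ((∑ j : Fin (m + 1 + 1), (((m + 1 : ℕ) : ℝ) - (j : ℕ)) * x j : ℝ) : ℂ)) *
              Complex.exp (α 0 * ((∑ i, x i - ∑ i, τ i : ℝ) : ℂ)) := by
              rw [Complex.ofReal_exp, ← Complex.exp_add, ← Complex.exp_add, ← Complex.exp_add]
              congr 1
              push_cast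
              ring
            calc _ = 2 ^ (m * (m + 1) / 2) *
                (((Real.exp (-∑ j : Fin (m + 2), ((m + 1 : ℝ) - (j : ℕ)) * x j) : ℝ) : ℂ) *
              (Complex.exp (-((∑ i : Fin (m + 1), ((i : ℕ) : ℝ) * τ i : ℝ) : ℂ) -
                (α 0 - α (Fin.last (m + 1))) * ((∑ i, τ i : ℝ) : ℂ)) *
              Complex.exp (-(α (Fin.last (m + 1))) * ((∑ i, τ i : ℝ) : ℂ) +
                ((∑ i : Fin (m + 1), ((i : ℕ) : ℝ) * τ i : ℝ) : ℂ)))) *
                ((Real.exp (-Real.pi * ∑ i : Fin (m + 1),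
              (Real.exp (2 * (x i.succ - τ i)) + Real.exp (2 * (τ i - x i.castSucc)))) : ℝ) : ℂ) *
                Psi (m + 1) (tl α) τ := by ring
              _ = _ := by rw [e3]; ring
    have hpow : (2 : ℂ) ^ ((m + 1) * (m + 1 + 1) / 2) = 2 ^ (m + 1) * 2 ^ (m * (m + 1) / 2) := by
      rw [← pow_add]
      congr 1
      have : (m + 1) * (m + 1 + 1) = m * (m + 1) + 2 * (m + 1) := by ring
      rw [this, Nat.add_mul_div_left _ _ (by norm_num)]
      ring
    calc Gam α * Jn (m + 1) μ x = 2 ^ (m + 1) * (Gam α' * (cmu μ * Jn (m + 1) μ x)) := by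
          rw [gam_step α]; ring
      _ = 2 ^ (m + 1) * (Gam α' * Rec μ x) := by rw [i2]
      _ = _ := by rw [hRec, hpow]; ring

end Pool.Agent.W239.WHC
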