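import Pool.Agent.W181.WH.Stm

/-! # WH-KEY: the Gamma integral of the cone -/

set_option autoImplicit false

open MeasureTheory Set

namespace Pool.Agent.W239.WH

open Pool.Agent.W181.WH

/-! ## Products over the index set -/

theorem prod_LIdx {M : Type*} [CommMonoid M] {m : ℕ} (F : Fin m → Fin m → M) :
    ∏ p : LIdx m, F p.1.1 p.1.2 = ∏ i, ∏ j, if j < i then F i j else 1 := by
  rw [← Finset.prod_subtype (Finset.univ.filter (fun p : Fin m × Fin m => p.2 < p.1))
    (fun p => by simp) (fun p : Fin m × Fin m => F p.1 p.2), Finset.prod_filter,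
    Fintype.prod_prod_type]

theorem sum_LIdx {M : Type*} [AddCommMonoid M] {m : ℕ} (F : Fin m → Fin m → M) :
    ∑ p : LIdx m, F p.1.1 p.1.2 = ∑ i, ∑ j, if j < i then F i j else 0 := by
  rw [← Finset.sum_subtype (Finset.univ.filter (fun p : Fin m × Fin m => p.2 < p.1))
    (fun p => by simp) (fun p : Fin m × Fin m => F p.1 p.2), Finset.sum_filter,
    Fintype.sum_prod_type]

theorem prod_snd {m : ℕ} (s : Fin m → ℝ) :
    ∏ p : LIdx m, s p.1.2 = ∏ i : Fin m, s i ^ (m - 1 - (i : ℕ)) := by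
  rw [prod_LIdx (fun _ j => s j), Finset.prod_comm]
  apply Finset.prod_congr rfl
  intro j _
  rw [← Finset.prod_filter, Finset.prod_const]
  congr 1
  rw [← Fin.card_Ioi]
  congr 1
  ext i
  simp

theorem prod_fst {m : ℕ} (d : Fin m → ℝ) :
    ∏ p : LIdx m, d p.1.1 = ∏ i : Fin m, d i ^ (i : ℕ) := by
  rw [prod_LIdx (fun i _ => d i)]
  apply Finset.prod_congr rfl
  intro i _
  rw [← Finset.prod_filter, Finset.prod_const]
  congr 1
  rw [← Fin.card_Iio]
  congr 1
  ext j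
  simp

/-! ## The trace -/

theorem lM_LIdx {m : ℕ} (v : LIdx m → ℝ) (p : LIdx m) : lM v p.1.1 p.1.2 = v p := by
  rw [lM, dif_pos p.2]

theorem trace_eq {m : ℕ} (s d : Fin m → ℝ) (v a : LIdx m → ℝ) (w : LIdx m → ℝ)
    (hw : lM w = lM a * lM v) :
    (MU (s, v) * ML (d, a)).trace =
      ∑ i, s i ^ 2 * d i ^ 2 + ∑ p : LIdx m, (s p.1.2 * d p.1.1) ^ 2 * w p ^ 2 := by
  have e1 : (MU (s, v) * ML (d, a)).trace =
      (lM w * Matrix.diagonal (fun i => s i ^ 2) * (lM w).transpose *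
        Matrix.diagonal (fun i => d i ^ 2)).trace := by
    rw [hw, MU, ML, Matrix.transpose_mul]
    simp only
    rw [← Matrix.mul_assoc, Matrix.trace_mul_comm]
    congr 1
    simp only [Matrix.mul_assoc]
  rw [e1, Matrix.trace]
  have e2 : ∀ j, (lM w * Matrix.diagonal (fun i => s i ^ 2) * (lM w).transpose *
        Matrix.diagonal (fun i => d i ^ 2)).diag j =
        ∑ i, (lM w j i) ^ 2 * (s i * d j) ^ 2 := by
    intro j
    rw [Matrix.diag_apply, Matrix.mul_diagonal, Matrix.mul_apply, Finset.sum_mul]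
    apply Finset.sum_congr rfl
    intro i _
    rw [Matrix.mul_diagonal, Matrix.transpose_apply]
    ring
  simp only [e2]
  have e3 : ∀ j i : Fin m, (lM w j i) ^ 2 * (s i * d j) ^ 2 =
      (if i < j then (lM w j i) ^ 2 * (s i * d j) ^ 2 else 0) +
        (if j = i then s i ^ 2 * d i ^ 2 else 0) := by
    intro j i
    by_cases h1 : i < j
    · rw [if_pos h1, if_neg h1.ne', add_zero]
    · rw [if_neg h1, zero_add]
      by_cases h2 : j = i
      · subst h2
        rw [if_pos rfl, lM, dif_neg (lt_irrefl _), if_pos rfl]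
        ring
      · rw [if_neg h2, lM, dif_neg h1, if_neg h2]
        ring
  rw [Finset.sum_congr rfl (fun j _ => Finset.sum_congr rfl (fun i _ => e3 j i))]
  simp only [Finset.sum_add_distrib]
  rw [add_comm]
  congr 1
  · apply Finset.sum_congr rfl
    intro j _
    simp
  · rw [← sum_LIdx (fun j i => (lM w j i) ^ 2 * (s i * d j) ^ 2)]
    apply Finset.sum_congr rfl
    intro p _
    rw [lM_LIdx]
    ring

/-! ## Powers -/

theorem cpow_real (x : ℝ) (hx : 0 < x) (c : ℂ) :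
    (x : ℂ) ^ c = Complex.exp ((Real.log x : ℂ) * c) := by
  rw [Complex.cpow_def_of_ne_zero (by exact_mod_cast hx.ne'), Complex.ofReal_log hx.le]

theorem prod_cpow {m : ℕ} (x : Fin m → ℝ) (hx : ∀ i, 0 < x i) (T : Fin m → Finset (Fin m))
    (b : Fin m → ℂ) :
    ∏ j, ((∏ i ∈ T j, x i ^ 2 : ℝ) : ℂ) ^ (b j) =
      ∏ i, (x i : ℂ) ^ (2 * ∑ j, if i ∈ T j then b j else 0) := by
  have e1 : ∀ j, ((∏ i ∈ T j, x i ^ 2 : ℝ) : ℂ) ^ (b j) =
      Complex.exp (∑ i, if i ∈ T j then 2 * (Real.log (x i) : ℂ) * b j else 0) := by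
    intro j
    rw [cpow_real _ (Finset.prod_pos (fun i _ => by have := hx i; positivity))]
    congr 1
    rw [Real.log_prod (fun i _ => by have := hx i; positivity), Complex.ofReal_sum,
      Finset.sum_mul, ← Finset.sum_filter]
    have : Finset.univ.filter (fun i => i ∈ T j) = T j := by ext i; simp
    rw [this]
    apply Finset.sum_congr rfl
    intro i _
    rw [Real.log_pow]
    push_cast
    ring
  have e2 : ∀ i, (x i : ℂ) ^ (2 * ∑ j, if i ∈ T j then b j else 0) =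
      Complex.exp (∑ j, if i ∈ T j then 2 * (Real.log (x i) : ℂ) * b j else 0) := by
    intro i
    rw [cpow_real _ (hx i)]
    congr 1
    rw [Finset.mul_sum, Finset.mul_sum]
    apply Finset.sum_congr rfl
    intro j _
    split_ifs <;> ring
  simp only [e1, e2]
  rw [← Complex.exp_sum, ← Complex.exp_sum, Finset.sum_comm]

theorem be_sum {m : ℕ} (μ : Fin m → ℂ) (i : Fin m) :
    2 * ∑ j, (if i ∈ Finset.Iic j then be μ j else 0) =
      (∑ k, if k ≤ i then μ k else 0) - m := by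
  obtain ⟨m', rfl⟩ : ∃ m', m = m' + 1 := ⟨m - 1, by have := i.2; omega⟩
  have e1 : (∑ k, if k ≤ i then μ k else 0) =
      ∑ k, μ k - ∑ k, if i < k then μ k else 0 := by
    rw [← Finset.sum_sub_distrib]
    apply Finset.sum_congr rfl
    intro k _
    by_cases h : k ≤ i
    · rw [if_pos h, if_neg (not_lt.2 h), sub_zero]
    · rw [if_neg h, if_pos (not_le.1 h), sub_self]
  rw [e1, Fin.sum_univ_succ (fun k => if i < k then μ k else 0), if_neg (by simp), zero_add,
    Fin.sum_univ_castSucc (fun j => if i ∈ Finset.Iic j then be μ j else 0)]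
  have e2 : ∀ j : Fin m', (if i ∈ Finset.Iic j.castSucc then be μ j.castSucc else 0) =
      -(1 / 2) * (if i < j.succ then μ j.succ else 0) := by
    intro j
    simp only [Finset.mem_Iic, Fin.le_castSucc_iff]
    split_ifs with h
    · rw [be, dif_pos (by simp)]
      have : (⟨((j.castSucc : Fin (m' + 1)) : ℕ) + 1, by simp⟩ : Fin (m' + 1)) = j.succ := by
        ext; simp
      rw [this]
      ring
    · ring
  simp only [e2]
  rw [← Finset.mul_sum, if_pos (by simpa using Fin.le_last i), be, dif_neg (by simp)]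
  ring

/-! ## One dimensional integrals -/

theorem gam1 (a : ℂ) (ha : 0 < a.re) (c : ℝ) (hc : 0 < c) :
    IntegrableOn (fun s : ℝ => (s : ℂ) ^ (a - 1) *
      ((Real.exp (-Real.pi * (s ^ 2 * c ^ 2)) : ℝ) : ℂ)) (Ioi 0) ∧
    ∫ s in Ioi (0 : ℝ), (s : ℂ) ^ (a - 1) * ((Real.exp (-Real.pi * (s ^ 2 * c ^ 2)) : ℝ) : ℂ) =
      GR a / 2 * (c : ℂ) ^ (-a) := by
  have hπ := Real.pi_pos
  constructor
  · have h1 := integrableOn_rpow_mul_exp_neg_mul_sq (b := Real.pi * c ^ 2) (by positivity)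
      (s := a.re - 1) (by linarith)
    refine Integrable.mono' h1 ?_ ?_
    · apply Measurable.aestronglyMeasurable
      fun_prop
    · refine (ae_restrict_iff' measurableSet_Ioi).2 (Filter.Eventually.of_forall ?_)
      intro s hs
      have hs' : (0 : ℝ) < s := hs
      rw [norm_mul, Complex.norm_cpow_eq_rpow_re_of_pos hs', Complex.norm_real, Real.norm_eq_abs,
        abs_of_pos (Real.exp_pos _)]
      apply le_of_eq
      congr 2
      ring
  · have h2 := integral_comp_rpow_Ioi_of_pos (g := fun y : ℝ => (1 / 2 : ℂ) * ((y : ℂ) ^ (a / 2 - 1) *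
      Complex.exp (-(((Real.pi * c ^ 2 : ℝ) : ℂ) * y)))) (p := 2) (by norm_num)
    have h3 : ∀ s ∈ Ioi (0 : ℝ), (s : ℂ) ^ (a - 1) *
        ((Real.exp (-Real.pi * (s ^ 2 * c ^ 2)) : ℝ) : ℂ) =
        (2 * s ^ ((2 : ℝ) - 1)) • ((1 / 2 : ℂ) * (((s ^ (2 : ℝ) : ℝ) : ℂ) ^ (a / 2 - 1) *
      Complex.exp (-(((Real.pi * c ^ 2 : ℝ) : ℂ) * ((s ^ (2 : ℝ) : ℝ) : ℂ))))) := by
      intro s hs
      have hs' : (0 : ℝ) < s := hs
      rw [show (2 : ℝ) - 1 = 1 by norm_num, Real.rpow_one, Real.rpow_two]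
      have e1 : ((s ^ 2 : ℝ) : ℂ) ^ (a / 2 - 1) = (s : ℂ) ^ (a - 2) := by
        rw [cpow_real _ (by positivity), cpow_real _ hs', Real.log_pow]
        congr 1
        push_cast
        ring
      have e2 : (s : ℂ) ^ (a - 1) = (s : ℂ) ^ (a - 2) * s := by
        rw [show a - 1 = a - 2 + 1 by ring,
          Complex.cpow_add _ _ (by exact_mod_cast hs'.ne'), Complex.cpow_one]
      rw [e1, e2, Complex.ofReal_exp, Complex.real_smul]
      push_cast
      have e3 : -(Real.pi : ℂ) * ((s : ℂ) ^ 2 * (c : ℂ) ^ 2) =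
          -((Real.pi : ℂ) * (c : ℂ) ^ 2 * (s : ℂ) ^ 2) := by ring
      rw [e3]
      ring
    rw [setIntegral_congr_fun measurableSet_Ioi h3, h2, integral_const_mul]
    have h4 := Complex.integral_cpow_mul_exp_neg_mul_Ioi (a := a / 2)
      (r := Real.pi * c ^ 2) (by simpa using ha) (by positivity)
    rw [h4, GR]
    have e4 : (1 / ((Real.pi * c ^ 2 : ℝ) : ℂ)) ^ (a / 2) =
        (Real.pi : ℂ) ^ (-a / 2) * (c : ℂ) ^ (-a) := by
      have e5 : (1 / ((Real.pi * c ^ 2 : ℝ) : ℂ)) = (((Real.pi * c ^ 2)⁻¹ : ℝ) : ℂ) := by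
        push_cast
        rw [one_div]
      rw [e5, cpow_real _ (by positivity), cpow_real _ hπ, cpow_real _ hc, ← Complex.exp_add,
        Real.log_inv, Real.log_mul hπ.ne' (by positivity), Real.log_pow]
      congr 1
      push_cast
      ring
    rw [e4]
    ring

theorem gauss (m : ℕ) (c : LIdx m → ℝ) (hc : ∀ p, 0 < c p) :
    Integrable (fun v : LIdx m → ℝ => ∏ p, Real.exp (-Real.pi * (c p ^ 2 * v p ^ 2))) ∧
    ∫ v : LIdx m → ℝ, ∏ p, Real.exp (-Real.pi * (c p ^ 2 * v p ^ 2)) = ∏ p, (c p)⁻¹ := by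
  have hπ := Real.pi_pos
  have e1 : ∀ p, ∀ x : ℝ, Real.exp (-Real.pi * (c p ^ 2 * x ^ 2)) =
      Real.exp (-(Real.pi * c p ^ 2) * x ^ 2) := by
    intro p x; congr 1; ring
  constructor
  · apply Integrable.fintype_prod (f := fun p x => Real.exp (-Real.pi * (c p ^ 2 * x ^ 2)))
    intro p
    simp only [e1]
    exact integrable_exp_neg_mul_sq (by have := hc p; positivity)
  · rw [integral_fintype_prod_volume_eq_prod
      (fun p x => Real.exp (-Real.pi * (c p ^ 2 * x ^ 2)))]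
    apply Finset.prod_congr rfl
    intro p _
    simp only [e1]
    rw [integral_gaussian, div_mul_cancel_left₀ hπ.ne', Real.sqrt_inv,
      Real.sqrt_sq (hc p).le]

/-! ## The integral in the coordinates `(s, v)` -/

noncomputable def EE {m : ℕ} (μ : Fin m → ℂ) (i : Fin m) : ℂ :=
  (∑ k, if k ≤ i then μ k else 0) - m

noncomputable def aa {m : ℕ} (μ : Fin m → ℂ) (i : Fin m) : ℂ :=
  1 + ∑ k, if k ≤ i then μ k - 1 else 0

theorem aa_eq {m : ℕ} (μ : Fin m → ℂ) (i : Fin m) :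
    aa μ i = (∑ k, if k ≤ i then μ k else 0) - (i : ℕ) := by
  have h : (∑ k, if k ≤ i then μ k - 1 else 0) =
      (∑ k, if k ≤ i then μ k else 0) - (∑ k : Fin m, if k ≤ i then (1 : ℂ) else 0) := by
    rw [← Finset.sum_sub_distrib]
    apply Finset.sum_congr rfl
    intro k _
    split_ifs <;> ring
  have h2 : (∑ k : Fin m, if k ≤ i then (1 : ℂ) else 0) = ((i : ℕ) : ℂ) + 1 := by
    rw [Finset.sum_boole]
    have : Finset.univ.filter (fun k : Fin m => k ≤ i) = Finset.Iic i := by ext; simp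
    rw [this, Fin.card_Iic]
    push_cast
    ring
  rw [aa, h, h2]
  ring

theorem aa_EE {m : ℕ} (μ : Fin m → ℂ) (i : Fin m) :
    aa μ i - 1 = EE μ i + ((m - 1 - (i : ℕ) : ℕ) : ℂ) := by
  have hi := i.2
  rw [aa_eq, EE, Nat.cast_sub (by omega), Nat.cast_sub (by omega)]
  push_cast
  ring

theorem aa_re {m : ℕ} (μ : Fin m → ℂ) (hμ : ∀ k, 1 < (μ k).re) (i : Fin m) : 0 < (aa μ i).re := by
  rw [aa, Complex.add_re, Complex.one_re, Complex.re_sum]
  have : 0 ≤ ∑ k, (if k ≤ i then μ k - 1 else 0 : ℂ).re := by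
    apply Finset.sum_nonneg
    intro k _
    split_ifs
    · rw [Complex.sub_re, Complex.one_re]; linarith [hμ k]
    · simp
  linarith

noncomputable def gs {m : ℕ} (μ : Fin m → ℂ) (d : Fin m → ℝ) (i : Fin m) (x : ℝ) : ℂ :=
  (x : ℂ) ^ (EE μ i) * ((Real.exp (-Real.pi * (x ^ 2 * d i ^ 2)) : ℝ) : ℂ)

noncomputable def hs {m : ℕ} (μ : Fin m → ℂ) (d : Fin m → ℝ) (i : Fin m) (x : ℝ) : ℂ :=
  (x : ℂ) ^ (aa μ i - 1) * ((Real.exp (-Real.pi * (x ^ 2 * d i ^ 2)) : ℝ) : ℂ)

theorem hs_eq {m : ℕ} (μ : Fin m → ℂ) (d : Fin m → ℝ) (i : Fin m) (x : ℝ) (hx : 0 < x) :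
    hs μ d i x = ((x ^ (m - 1 - (i : ℕ)) : ℝ) : ℂ) * gs μ d i x := by
  rw [hs, gs, aa_EE, Complex.cpow_add _ _ (by exact_mod_cast hx.ne'), Complex.cpow_natCast]
  push_cast
  ring

noncomputable def GG {m : ℕ} (μ : Fin m → ℂ) (d : Fin m → ℝ)
    (q : (Fin m → ℝ) × (LIdx m → ℝ)) : ℂ :=
  (∏ i, gs μ d i (q.1 i)) *
    ((∏ p : LIdx m, Real.exp (-Real.pi * ((q.1 p.1.2 * d p.1.1) ^ 2 * q.2 p ^ 2)) : ℝ) : ℂ)

theorem GG_meas {m : ℕ} (μ : Fin m → ℂ) (d : Fin m → ℝ) : Measurable (GG μ d) := by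
  unfold GG gs
  apply Measurable.mul
  · apply Finset.measurable_fun_prod
    intro i _
    apply Measurable.mul
    · exact (Complex.measurable_ofReal.comp ((measurable_pi_apply i).comp measurable_fst)).pow_const _
    · fun_prop
  · apply Complex.measurable_ofReal.comp
    apply Finset.measurable_fun_prod
    intro p _
    fun_prop

theorem orth_pi (m : ℕ) : (volume.restrict (orth m) : Measure (Fin m → ℝ)) =
    Measure.pi (fun _ : Fin m => volume.restrict (Ioi (0 : ℝ))) := by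
  have h : orth m = Set.univ.pi (fun _ : Fin m => Ioi (0 : ℝ)) := by
    ext s
    simp [orth]
  rw [h, volume_pi]
  exact Measure.restrict_pi_pi (fun _ : Fin m => (volume : Measure ℝ)) (fun _ => Ioi (0 : ℝ))

theorem meas_orth (m : ℕ) : MeasurableSet (orth m) := by
  have h : orth m = Set.univ.pi (fun _ : Fin m => Ioi (0 : ℝ)) := by
    ext s
    simp [orth]
  rw [h]
  exact MeasurableSet.univ_pi (fun _ => measurableSet_Ioi)

/-- the density -/
noncomputable def dn (m : ℕ) (s : Fin m → ℝ) : ENNReal :=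
  ENNReal.ofReal (∏ i : Fin m, s i ^ (2 * (m - 1 - (i : ℕ))))

theorem dn_meas (m : ℕ) : Measurable (dn m) := by
  unfold dn
  apply ENNReal.measurable_ofReal.comp
  apply Finset.measurable_fun_prod
  intro i _
  fun_prop

theorem dn_toReal (m : ℕ) (s : Fin m → ℝ) (hs : s ∈ orth m) :
    (dn m s).toReal = (∏ i : Fin m, s i ^ (m - 1 - (i : ℕ))) ^ 2 := by
  rw [dn, ENNReal.toReal_ofReal (Finset.prod_nonneg (fun i _ => by
    have := hs i; positivity)), ← Finset.prod_pow]
  apply Finset.prod_congr rfl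
  intro i _
  rw [← pow_mul, mul_comm]

theorem prod_inv {m : ℕ} (s d : Fin m → ℝ) :
    ∏ p : LIdx m, (s p.1.2 * d p.1.1)⁻¹ =
      (∏ i : Fin m, s i ^ (m - 1 - (i : ℕ)))⁻¹ * (∏ i : Fin m, d i ^ (i : ℕ))⁻¹ := by
  rw [Finset.prod_inv_distrib, Finset.prod_mul_distrib, prod_snd, prod_fst, mul_inv]

theorem GI {m : ℕ} (μ : Fin m → ℂ) (hμ : ∀ k, 1 < (μ k).re) (d : Fin m → ℝ)
    (hd : ∀ i, 0 < d i) : Integrable (GG μ d) (wU m) ∧
    ∫ q, GG μ d q ∂(wU m) = cmu μ * ∏ i, (d i : ℂ) ^ (-(∑ k, if k ≤ i then μ k else 0)) := by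
  have hwU : wU m = ((volume.restrict (orth m)).withDensity (dn m)).prod volume := rfl
  have hlt : ∀ᵐ s ∂(volume.restrict (orth m) : Measure (Fin m → ℝ)), dn m s < ⊤ :=
    Filter.Eventually.of_forall (fun s => ENNReal.ofReal_lt_top)
  have hae : ∀ᵐ s ∂(volume.restrict (orth m) : Measure (Fin m → ℝ)), s ∈ orth m :=
    ae_restrict_mem (meas_orth m)
  have hae' : ∀ᵐ s ∂((volume.restrict (orth m) : Measure (Fin m → ℝ)).withDensity (dn m)),
      s ∈ orth m := (withDensity_absolutelyContinuous _ _) hae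
  set K : ℝ := (∏ i : Fin m, d i ^ (i : ℕ))⁻¹ with hK
  have hcp : ∀ s ∈ orth m, ∀ p : LIdx m, 0 < s p.1.2 * d p.1.1 :=
    fun s hs p => mul_pos (hs _) (hd _)
  -- inner integrals
  have hin : ∀ s ∈ orth m, Integrable (fun v => GG μ d (s, v)) ∧
      ∫ v, GG μ d (s, v) = (∏ i, gs μ d i (s i)) *
        ((∏ p : LIdx m, (s p.1.2 * d p.1.1)⁻¹ : ℝ) : ℂ) ∧
      ∫ v, ‖GG μ d (s, v)‖ = ‖∏ i, gs μ d i (s i)‖ * ∏ p : LIdx m, (s p.1.2 * d p.1.1)⁻¹ := by
    intro s hs
    obtain ⟨g1, g2⟩ := gauss m (fun p => s p.1.2 * d p.1.1) (hcp s hs)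
    refine ⟨?_, ?_, ?_⟩
    · exact (g1.ofReal (𝕜 := ℂ)).const_mul (∏ i, gs μ d i (s i))
    · simp only [GG]
      rw [integral_const_mul, integral_complex_ofReal, g2]
    · simp only [GG, norm_mul, Complex.norm_real]
      rw [integral_const_mul]
      congr 1
      rw [← g2]
      apply integral_congr_ae
      refine Filter.Eventually.of_forall (fun v => ?_)
      simp only [Real.norm_eq_abs]
      rw [abs_of_nonneg (Finset.prod_nonneg (fun p _ => (Real.exp_pos _).le))]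
  -- one dimensional integrals
  have hhs : ∀ i, Integrable (hs μ d i) (volume.restrict (Ioi 0)) := fun i =>
    (gam1 (aa μ i) (aa_re μ hμ i) (d i) (hd i)).1
  have hhs2 : ∀ i, ∫ x in Ioi (0 : ℝ), hs μ d i x = GR (aa μ i) / 2 * (d i : ℂ) ^ (-(aa μ i)) :=
    fun i => (gam1 (aa μ i) (aa_re μ hμ i) (d i) (hd i)).2
  have hpr : ∀ s ∈ orth m, ∏ i, hs μ d i (s i) =
      ((∏ i : Fin m, s i ^ (m - 1 - (i : ℕ)) : ℝ) : ℂ) * ∏ i, gs μ d i (s i) := by
    intro s hs'
    rw [Complex.ofReal_prod, ← Finset.prod_mul_distrib]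
    exact Finset.prod_congr rfl (fun i _ => hs_eq μ d i (s i) (hs' i))
  have hpos : ∀ s ∈ orth m, 0 < ∏ i : Fin m, s i ^ (m - 1 - (i : ℕ)) :=
    fun s hs => Finset.prod_pos (fun i _ => pow_pos (hs i) _)
  have hint : Integrable (GG μ d) (wU m) := by
    rw [hwU, integrable_prod_iff (GG_meas μ d).aestronglyMeasurable]
    refine ⟨?_, ?_⟩
    · filter_upwards [hae'] with s hs
      exact (hin s hs).1
    · rw [integrable_withDensity_iff_integrable_smul' (dn_meas m) hlt]
      have h1 : Integrable (fun s : Fin m → ℝ => K * ‖∏ i, hs μ d i (s i)‖)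
          (volume.restrict (orth m)) := by
        apply Integrable.const_mul
        apply Integrable.norm
        rw [orth_pi]
        exact Integrable.fintype_prod (f := fun i x => hs μ d i x) hhs
      refine h1.congr ?_
      filter_upwards [hae] with s hs
      rw [(hin s hs).2.2, dn_toReal m s hs, hpr s hs, norm_mul, Complex.norm_real,
        Real.norm_eq_abs, abs_of_pos (hpos s hs), prod_inv, smul_eq_mul, hK]
      have := (hpos s hs).ne'
      field_simp
  refine ⟨hint, ?_⟩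
  have h2 : ∫ q, GG μ d q ∂(wU m) = (K : ℂ) * ∫ s in orth m, ∏ i, hs μ d i (s i) := by
    rw [hwU, integral_prod _ (by rw [← hwU]; exact hint),
      integral_withDensity_eq_integral_toReal_smul (dn_meas m) hlt, ← integral_const_mul]
    apply integral_congr_ae
    filter_upwards [hae] with s hs
    rw [(hin s hs).2.1, dn_toReal m s hs, hpr s hs, prod_inv, Complex.real_smul, hK]
    have := (hpos s hs).ne'
    have h3 : ((∏ i : Fin m, s i ^ (m - 1 - (i : ℕ)) : ℝ) : ℂ) ≠ 0 := by exact_mod_cast this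
    push_cast at h3 ⊢
    field_simp
  rw [h2, orth_pi, integral_fintype_prod_eq_prod (fun i x => hs μ d i x)]
  simp only [hhs2]
  rw [hK, cmu, Complex.ofReal_inv, Complex.ofReal_prod, ← Finset.prod_inv_distrib,
    ← Finset.prod_mul_distrib, ← Finset.prod_mul_distrib]
  apply Finset.prod_congr rfl
  intro i _
  have hd' : (d i : ℂ) ≠ 0 := by exact_mod_cast (hd i).ne'
  have e1 : (d i : ℂ) ^ (-(∑ k, if k ≤ i then μ k else 0)) =
      (d i : ℂ) ^ (-(aa μ i)) * (((d i) ^ (i : ℕ) : ℝ) : ℂ)⁻¹ := by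
    have : -(∑ k, if k ≤ i then μ k else 0) = -(aa μ i) - ((i : ℕ) : ℂ) := by
      rw [aa_eq]; ring
    rw [this, Complex.cpow_sub _ _ hd', Complex.cpow_natCast]
    push_cast
    rfl
  rw [e1]
  show _ = GR (aa μ i) / 2 * _
  ring

/-! ## The main theorem -/

theorem t_key : S_UNI → S_CHOL → S_KEY := by
  intro hU hC m μ hμ P hP
  obtain ⟨u1, -, -, u4, -, -⟩ := hU m
  obtain ⟨c1, -, c3⟩ := hC m
  obtain ⟨⟨d, a⟩, hd, rfl⟩ := c1 P hP
  simp only at hd
  obtain ⟨gi, gv⟩ := GI μ hμ d hd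
  have hwU : wU m = ((volume.restrict (orth m)).withDensity (dn m)).prod volume := rfl
  have hT : MeasurePreserving (Prod.map id (fun v => mulC a v)) (wU m) (wU m) := by
    rw [hwU]
    exact (MeasurePreserving.id _).prod (u4 a)
  have hae : ∀ᵐ q ∂(wU m), q.1 ∈ orth m := by
    rw [hwU]
    apply (Measure.quasiMeasurePreserving_fst).ae
    exact (withDensity_absolutelyContinuous _ _) (ae_restrict_mem (meas_orth m))
  have hfe : (fun q : (Fin m → ℝ) × (LIdx m → ℝ) => GG μ d (Prod.map id (fun v => mulC a v) q))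
      =ᵐ[wU m] (fun q => ((Real.exp (-Real.pi * (MU q * ML (d, a)).trace) : ℝ) : ℂ) *
        ∏ j, ((Um (MU q) j : ℝ) : ℂ) ^ (be μ j)) := by
    filter_upwards [hae] with q hq
    obtain ⟨s, v⟩ := q
    simp only at hq
    rw [trace_eq s d v a (mulC a v) (u1 a v).1]
    have e1 : ∏ j, ((Um (MU (s, v)) j : ℝ) : ℂ) ^ (be μ j) = ∏ i, (s i : ℂ) ^ (EE μ i) := by
      have e2 : ∀ j, Um (MU (s, v)) j = ∏ i ∈ Finset.Iic j, s i ^ 2 := fun j => (c3 (s, v) j).2
      simp only [e2]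
      rw [prod_cpow s hq (fun j => Finset.Iic j) (be μ)]
      apply Finset.prod_congr rfl
      intro i _
      rw [be_sum, EE]
    rw [e1, GG]
    simp only [Prod.map_fst, Prod.map_snd, id, gs]
    rw [mul_add, Real.exp_add, Finset.mul_sum, Finset.mul_sum, Real.exp_sum, Real.exp_sum,
      Finset.prod_mul_distrib]
    push_cast
    ring
  constructor
  · exact ((hT.integrable_comp (GG_meas μ d).aestronglyMeasurable).2 gi).congr hfe
  · rw [← integral_congr_ae hfe]
    have h1 := integral_map (μ := wU m) hT.measurable.aemeasurable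
      (f := GG μ d) (GG_meas μ d).aestronglyMeasurable
    rw [← h1, hT.map_eq, gv]
    congr 1
    have e2 : ∀ k, Bm (ML (d, a)) k = ∏ i ∈ Finset.Ici k, d i ^ 2 := fun k => (c3 (d, a) k).1
    simp only [e2]
    rw [prod_cpow d hd (fun j => Finset.Ici j) (fun k => -(μ k) / 2)]
    apply Finset.prod_congr rfl
    intro i _
    congr 1
    rw [Finset.mul_sum, ← Finset.sum_neg_distrib]
    apply Finset.sum_congr rfl
    intro k _
    simp only [Finset.mem_Ici]
    split_ifs <;> ring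

end Pool.Agent.W239.WH
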